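import Pool.Agent.H17.It2

set_option autoImplicit false
open Cardinal

namespace Pool.Agent.Results.MP_195fab_gt.Card

theorem result (X Y : Type) [TopologicalSpace X] [TopologicalSpace Y] [T35Space X] [T35Space Y]
    (φ : {F : {f : X → ℝ // Continuous f} → ℝ // Continuous F} ≃ₜ
      {F : {f : Y → ℝ // Continuous f} → ℝ // Continuous F}) :
    Cardinal.mk X = Cardinal.mk Y ∨ (Finite X ∧ Finite Y) := by
  cases finite_or_infinite X with
  | inl h => exact Or.inr ⟨h, Pool.Agent.H17.It.fin_fin φ⟩
  | inr h =>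
    cases finite_or_infinite Y with
    | inl h' => exact Or.inr ⟨Pool.Agent.H17.It.fin_fin φ.symm, h'⟩
    | inr h' =>
      exact Or.inl (le_antisymm
        ((Pool.Agent.H17.It.card_le φ.symm).trans (max_le le_rfl (aleph0_le_mk Y)))
        ((Pool.Agent.H17.It.card_le φ).trans (max_le le_rfl (aleph0_le_mk X))))

end Pool.Agent.Results.MP_195fab_gt.Card
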